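import Mathlib
import Pool.Agent.V1255F.Defs
import Pool.Agent.V1255F.Complete
import Pool.Agent.V1255F.Main

/-!
# Borel complete classes whose groupoids are not Borel bireducible (MP_8b3519, Q1)

The class `C` of all countable structures in a rich relational language and the class `D` of those
whose first binary relation is a linear order are both Borel complete, but `S_∞ ⋉ C` is not Borel
reducible to `S_∞ ⋉ D`. More generally `S_∞ ⋉ C` is not Borel reducible to the groupoid of any class
of structures without automorphisms of order two, such as the class of linear orders.

Proof. To a tree `τ` on `ℕ` attach two structures `M_0(τ)`, `M_1(τ)` (the two halves of a tower of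
`(ℤ/2)`-torsors) whose isomorphisms are the coherent sequences of chains supported by `τ`; they are
isomorphic iff `τ` has an infinite path, and every automorphism of `M_0(τ)` has square one. If
`(obj, arr)` were a Borel reduction, then `arr` would send these automorphisms to `1`, so
`arr (g, M_0(τ))` would not depend on the isomorphism `g : M_0(τ) → M_1(τ)`. By analytic separation the
set of `τ` with `M_0(τ) ≅ M_1(τ)` would then be an injective Borel projection of a Borel set (here
`obj M_0(τ) ≅ obj M_1(τ) → M_0(τ) ≅ M_1(τ)` is used), hence Borel; but it is not.
-/

set_option autoImplicit false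

open Set Pool.Agent.V1255F

namespace Pool.Agent.Results.MP_8b3519_lc.NotBireducible

theorem result :
    (∃ (L L' : FirstOrder.Language.{0, 0}) (C : Set (Mod L)) (D : Set (Mod L')),
      CountableLang L ∧ CountableLang L' ∧ BorelComplete C ∧ BorelComplete D ∧ ¬ GroupoidReducible C D) ∧
    CountableLang L0 ∧ BorelComplete (univ : Set (Mod L0)) ∧ BorelComplete Ordered ∧
    ∀ L : FirstOrder.Language.{0, 0}, CountableLang L → ∀ D : Set (Mod L),
      (∀ x ∈ D, ∀ g : Equiv.Perm ℕ, act g x = x → g * g = 1 → g = 1) →
        ¬ GroupoidReducible (univ : Set (Mod L0)) D :=
  ⟨⟨L0, L0, univ, Ordered, countable_L0, countable_L0, univ_complete, ordered_complete,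
      not_reducible countable_L0 Ordered ordered_rigid⟩,
    countable_L0, univ_complete, ordered_complete, fun _ hL D hD => not_reducible hL D hD⟩

end Pool.Agent.Results.MP_8b3519_lc.NotBireducible
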